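import Pool.Agent.PFE.StmtsE2b

/-!
# Row YKY of squad PFE: the data over the field
-/

open scoped BigOperators

namespace Pool.Agent.PFE.H80

open Pool.Agent.PFE

theorem yky (hR : RtkStmt) (hZ : ZpyStmt) (hH : HsyStmt) : YkyStmt := by
  intro K A X J Ω Ω' _ _ _ _ _ _ _ _ _ _ y l χ D hu
  obtain ⟨-, -, h3, h4, -⟩ := hR K A X J Ω Ω' y l χ D
  have hc : ∀ b, b * D.RT 1 = D.RT 1 * b := h3 1 (by simp)
  obtain ⟨u, hu'⟩ := hu
  have hw : ∀ b : A, (↑u⁻¹ : A) * b = b * ↑u⁻¹ := by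
    intro b
    have h : Commute (u : A) b := by
      rw [hu']
      exact (hc b).symm
    exact h.units_inv_left
  refine ⟨{ D with
    w := ↑u⁻¹
    wy := (hw y).symm
    rw := ?_
    np := ?_ }, rfl⟩
  · have h := h4 (↑u⁻¹ : A) 1 hw
    rw [mul_one] at h
    change D.RT (↑u⁻¹ : A) = 1
    rw [h, ← hu', Units.inv_mul]
  · intro a
    exact hZ K A J D.d (D.RT 1) D.ds (fun a => (hc a).symm) ⟨u, hu'⟩
      (fun e he => hH K A X J Ω Ω' y l χ D e he) a

end Pool.Agent.PFE.H80
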