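import Pool.Agent.PFE.StmtsE2c

/-!
# Row YFA of squad PFE: the twisted part of the frame
-/

open scoped BigOperators

namespace Pool.Agent.PFE.H80

open Pool.Agent.PFE MulOpposite
open Pool.Agent.PFC (tw)
open Pool.Agent.PFC.B1 (BiM)
open Pool.Agent.PFD.D2b (wrp)

section

variable {F V V1 A : Type} [Field F] [CommGroup V] [CommGroup V1] [Ring A] [Algebra F A]

theorem il_of (i : V1 →* V) (v : V1) :
    il (MonoidAlgebra.of F V) i (MonoidAlgebra.of F V1 v) = MonoidAlgebra.of F V (i v) := by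
  unfold il
  rw [MonoidAlgebra.lift_of]
  rfl

theorem dom_of (σ : MulAut V1) (v : V1) :
    MonoidAlgebra.domCongr F F σ (MonoidAlgebra.of F V1 v) = MonoidAlgebra.of F V1 (σ v) := by
  rw [MonoidAlgebra.of_apply, MonoidAlgebra.of_apply, MonoidAlgebra.domCongr_single]

theorem ext_of {M : Type} [AddCommGroup M] [Module F M] (f g : MonoidAlgebra F V1 →ₗ[F] M)
    (h : ∀ v, f (MonoidAlgebra.of F V1 v) = g (MonoidAlgebra.of F V1 v)) : f = g := by
  refine MonoidAlgebra.lhom_ext' fun v => LinearMap.ext fun r => ?_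
  have e : MonoidAlgebra.lsingle (R := F) v r = r • MonoidAlgebra.of F V1 v := by
    rw [MonoidAlgebra.smul_of]
    rfl
  rw [LinearMap.comp_apply, LinearMap.comp_apply, e, map_smul, map_smul, h]

/-- the linear extension of the twisted commutation -/
theorem tw_b (i : V1 →* V) (j : MonoidAlgebra F V →ₐ[F] A) (σ : MulAut V1) (m : A)
    (h : ∀ v : V1, j (MonoidAlgebra.of F V (i (σ v))) * m = m * j (MonoidAlgebra.of F V (i v)))
    (γ : MonoidAlgebra F V1) :
    j (il (MonoidAlgebra.of F V) i (MonoidAlgebra.domCongr F F σ γ)) * m =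
      m * j (il (MonoidAlgebra.of F V) i γ) := by
  have e := ext_of
    ((LinearMap.mulRight F m) ∘ₗ j.toLinearMap ∘ₗ (il (MonoidAlgebra.of F V) i).toLinearMap ∘ₗ
      (MonoidAlgebra.domCongr F F σ).toLinearMap)
    ((LinearMap.mulLeft F m) ∘ₗ j.toLinearMap ∘ₗ (il (MonoidAlgebra.of F V) i).toLinearMap)
    (fun v => by
      change j (il (MonoidAlgebra.of F V) i (MonoidAlgebra.domCongr F F σ
        (MonoidAlgebra.of F V1 v))) * m = m * j (il (MonoidAlgebra.of F V) i
          (MonoidAlgebra.of F V1 v))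
      rw [dom_of, il_of, il_of, h])
  exact LinearMap.congr_fun e γ

/-- the linear extension of the twisted commutation, functionals -/
theorem tw_d (i : V1 →* V) (j : MonoidAlgebra F V →ₐ[F] A) (σ : MulAut V1) (d : A →ₗ[F] F)
    (h : ∀ (v : V1) (a : A), d (j (MonoidAlgebra.of F V (i (σ v))) * a) =
      d (a * j (MonoidAlgebra.of F V (i v))))
    (γ : MonoidAlgebra F V1) (a : A) :
    d (j (il (MonoidAlgebra.of F V) i (MonoidAlgebra.domCongr F F σ γ)) * a) =
      d (a * j (il (MonoidAlgebra.of F V) i γ)) := by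
  have e := ext_of
    (d ∘ₗ (LinearMap.mulRight F a) ∘ₗ j.toLinearMap ∘ₗ
      (il (MonoidAlgebra.of F V) i).toLinearMap ∘ₗ (MonoidAlgebra.domCongr F F σ).toLinearMap)
    (d ∘ₗ (LinearMap.mulLeft F a) ∘ₗ j.toLinearMap ∘ₗ
      (il (MonoidAlgebra.of F V) i).toLinearMap)
    (fun v => by
      change d (j (il (MonoidAlgebra.of F V) i (MonoidAlgebra.domCongr F F σ
        (MonoidAlgebra.of F V1 v))) * a) = d (a * j (il (MonoidAlgebra.of F V) i
          (MonoidAlgebra.of F V1 v)))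
      rw [dom_of, il_of, il_of, h])
  exact LinearMap.congr_fun e γ

theorem stab_smul {Om : Type} [MulAction (V × V) Om] (w : V × V) (ω : Om) :
    MulAction.stabilizer (V × V) (w • ω) = MulAction.stabilizer (V × V) ω := by
  ext g
  rw [MulAction.mem_stabilizer_iff, MulAction.mem_stabilizer_iff, smul_smul, mul_comm,
    ← smul_smul]
  exact smul_left_cancel_iff w

end

theorem yfa (hO : OrbStmt) (hC : CazStmt) : YfaStmt := by
  classical
  intro F V E V1 C A Om _ _ _ _ _ _ _ _ _ _ _ φ i W _ l Y G θ j b d hl hi hPW hPW' hW hθ hGy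
    hGom hb hd hst
  set ι := MonoidAlgebra.of F V with hι
  -- the stabilisers
  have hmem : ∀ ω : Om, ∃ e : E, (∀ g : V × V, g • ω = ω → g.1 = φ e g.2) ∧
      ∀ p : V, p ∈ i.range → ((φ e p, p) : V × V) • ω = ω := by
    intro ω
    obtain ⟨e, R, hR, hs⟩ := hst ω
    refine ⟨e, fun g hg => ?_, fun p hp => ?_⟩
    · have h1 : g ∈ MulAction.stabilizer (V × V) ω := hg
      rw [hs] at h1
      obtain ⟨r, -, hr⟩ := h1
      rw [← hr]
      rfl
    · have h1 : ((φ e p, p) : V × V) ∈ MulAction.stabilizer (V × V) ω := by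
        rw [hs]
        exact ⟨p, hR hp, rfl⟩
      exact h1
  have hφP : ∀ (e : E) (p : V), p ∈ i.range → φ e p ∈ i.range := by
    rintro e _ ⟨v, rfl⟩
    obtain ⟨c, hc⟩ := hθ e
    exact ⟨θ c v, (hc v).symm⟩
  obtain ⟨Θ, hA, hB, hCc⟩ := hO V Om i.range W hPW' (by
    intro ω a b' ha1 ha2 hb1 hb2 hab
    obtain ⟨e, he, hp⟩ := hmem ω
    have h1 := he _ hab
    simp only [Prod.fst_mul, Prod.snd_mul, map_mul] at h1
    have h2 : a.1 * (φ e a.2)⁻¹ = φ e b'.2 * b'.1⁻¹ := by
      rw [mul_inv_eq_iff_eq_mul, mul_assoc, mul_comm _ (φ e a.2), ← mul_assoc,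
        mul_comm _ (φ e a.2), ← h1]
      group
    have h3 : a.1 * (φ e a.2)⁻¹ ∈ i.range ⊓ W := by
      refine ⟨i.range.mul_mem ha1 (i.range.inv_mem (hφP e _ ha2)), ?_⟩
      rw [h2]
      exact W.mul_mem (hW e _ hb2) (W.inv_mem hb1)
    rw [hPW, Subgroup.mem_bot, mul_inv_eq_one] at h3
    have h4 : a = (φ e a.2, a.2) := Prod.ext h3 rfl
    rw [h4]
    exact hp _ ha2)
  obtain ⟨z0, z0', hz0, hz⟩ := hC F V1 l Y hl
  set J : MonoidAlgebra F V1 →ₐ[F] MonoidAlgebra F V := il ι i with hJ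
  -- the degree
  let P0 : Subgroup (V × V) → C → Prop := fun S c => ∀ v, ((i (θ c v), i v) : V × V) ∈ S
  let cc : Subgroup (V × V) → C := fun S => if h : ∃ c, P0 S c then h.choose else 1
  have hcc : ∀ ω : Om, P0 (MulAction.stabilizer (V × V) ω)
      (cc (MulAction.stabilizer (V × V) ω)) := by
    intro ω
    have hex : ∃ c, P0 (MulAction.stabilizer (V × V) ω) c := by
      obtain ⟨e, -, hp⟩ := hmem ω
      obtain ⟨c, hc⟩ := hθ e
      refine ⟨c, fun v => ?_⟩
      rw [← hc v]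
      exact hp (i v) ⟨v, rfl⟩
    change P0 _ (if h : ∃ c, P0 (MulAction.stabilizer (V × V) ω) c then h.choose else 1)
    rw [dif_pos hex]
    exact hex.choose_spec
  let dg : Om → C := fun ω => (cc (MulAction.stabilizer (V × V) ω))⁻¹
  have hχ : ∀ ω, Y.χ (θ (dg ω)) * Y.χ (θ (dg ω)⁻¹) = 1 := by
    intro ω
    rw [← map_mul, ← map_mul, mul_inv_cancel, map_one, map_one]
  have hfix : ∀ (ω : Om) (v : V1), ((i (θ (dg ω)⁻¹ v), i v) : V × V) • ω = ω := by
    intro ω v
    have h := hcc ω v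
    change _ ∈ MulAction.stabilizer (V × V) ω
    change ((i (θ ((cc (MulAction.stabilizer (V × V) ω))⁻¹)⁻¹ v), i v) : V × V) ∈ _
    rw [inv_inv]
    exact h
  have hιinv : ∀ v : V, j (ι v⁻¹) * j (ι v) = 1 := by
    intro v
    rw [← map_mul, ← map_mul, inv_mul_cancel, map_one, map_one]
  have k1 : ∀ ω, Y.χ (θ (dg ω)⁻¹) • (j G.y * b ω) = b ω * j G.y := by
    intro ω
    have h := tw_b i j (θ (dg ω)⁻¹) (b ω) (fun v => by
      have h1 := hb ((i (θ (dg ω)⁻¹ v), i v) : V × V) ω
      rw [hfix ω v] at h1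
      calc j (ι (i (θ (dg ω)⁻¹ v))) * b ω
          = j (ι (i (θ (dg ω)⁻¹ v))) * b ω * (j (ι (i v)⁻¹) * j (ι (i v))) := by
            rw [hιinv, mul_one]
        _ = j (ι (i (θ (dg ω)⁻¹ v))) * b ω * j (ι (i v)⁻¹) * j (ι (i v)) := by
            rw [mul_assoc (j (ι (i (θ (dg ω)⁻¹ v))) * b ω)]
        _ = b ω * j (ι (i v)) := by rw [← h1]) Y.y
    rw [Y.ye, map_smul, map_smul, smul_mul_assoc] at h
    rw [hGy]
    exact h
  have k2 : ∀ ω a, Y.χ (θ (dg ω)⁻¹) * d ω (j G.y * a) = d ω (a * j G.y) := by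
    intro ω a
    have h := tw_d i j (θ (dg ω)⁻¹) (d ω) (fun v a => by
      have h1 := hd ((i (θ (dg ω)⁻¹ v), i v) : V × V) ω (a * j (ι (i v)))
      rw [hfix ω v] at h1
      rw [← h1]
      congr 1
      calc j (ι (i (θ (dg ω)⁻¹ v))) * a
          = j (ι (i (θ (dg ω)⁻¹ v))) * a * (j (ι (i v)) * j (ι (i v)⁻¹)) := by
            rw [← map_mul, ← map_mul, mul_inv_cancel, map_one, map_one, mul_one]
        _ = _ := by simp only [mul_assoc]) Y.y a
    rw [Y.ye, map_smul, map_smul, smul_mul_assoc, map_smul, smul_eq_mul] at h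
    rw [hGy]
    exact h
  let act : MulAction (W × W) {ω // ω ∈ Θ} :=
    { smul := fun w o => ⟨(((w.1 : V), (w.2 : V)) : V × V) • o.1, hA o.1 o.2 _ w.1.2 w.2.2⟩
      one_smul := fun o => Subtype.ext (one_smul (V × V) o.1)
      mul_smul := fun w w' o => Subtype.ext (by
        change ((((w * w').1 : V), ((w * w').2 : V)) : V × V) • o.1 =
          (((w.1 : V), (w.2 : V)) : V × V) • (((w'.1 : V), (w'.2 : V)) : V × V) • o.1
        rw [smul_smul]
        rfl) }
  let act' : MulAction (W × W) Empty :=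
    { smul := fun _ o => o
      one_smul := fun _ => rfl
      mul_smul := fun _ _ _ => rfl }
  have hact : ∀ (w : W × W) (o : {ω // ω ∈ Θ}),
      (w • o).1 = (((w.1 : V), (w.2 : V)) : V × V) • o.1 := fun _ _ => rfl
  have hlm : ∀ γ a, (AB j).lm γ a = j γ * a := fun _ _ => rfl
  have hrm : ∀ γ a, (AB j).rm (op γ) a = a * j γ := fun _ _ => rfl
  have hwrp : ∀ (w : W × W) (a : A), wrp G.om (AB j) w a =
      j (ι (w.1 : V)) * (a * j (ι (w.2 : V)⁻¹)) := by
    intro w a
    change j (G.om w.1) * (a * j (G.om w.2⁻¹)) = _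
    rw [hGom, hGom]
    rfl
  refine ⟨{ω // ω ∈ Θ}, Empty, inferInstance, inferInstance, act, act', ⟨{
    deg := fun o => dg o.1
    dg := fun w o => ?_
    fo := fun w o h => ?_
    fo' := fun w o => o.elim
    g := fun o => b o.1
    gw := fun w o => ?_
    gy := fun o => ?_
    c := fun o => (d o.1).comp (LinearMap.mulLeft F (j (J z0)))
    cw := fun w o n => ?_
    cy := fun o n => ?_
    h := fun o => o.elim
    hw := fun w o => o.elim
    d := fun o => o.elim
    dw := fun w o => o.elim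
    fr := fun n => ?_ }⟩⟩
  · change (cc (MulAction.stabilizer (V × V) (w • o).1))⁻¹ =
      (cc (MulAction.stabilizer (V × V) o.1))⁻¹
    rw [hact, stab_smul]
  · have h1 : (((1 : V), (w : V)) : V × V) • o.1 = o.1 := congrArg Subtype.val h
    obtain ⟨e, he, -⟩ := hmem o.1
    have h2 : (1 : V) = φ e (w : V) := he _ h1
    have h3 : (w : V) = 1 := (MulEquiv.map_eq_one_iff (φ e)).mp h2.symm
    exact Subtype.ext h3
  · rw [hact, hb, hwrp, mul_assoc]
  · change (AB j).lm G.y (b o.1) = Y.χ (θ (dg o.1)) • (AB j).rm (op G.y) (b o.1)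
    rw [hlm, hrm, ← k1, smul_smul, hχ, one_smul]
  · change d (w • o).1 (j (J z0) * wrp G.om (AB j) w n) = d o.1 (j (J z0) * n)
    rw [hact, hwrp]
    have e : j (J z0) * (j (ι (w.1 : V)) * (n * j (ι (w.2 : V)⁻¹))) =
        j (ι (w.1 : V)) * (j (J z0) * n) * j (ι (w.2 : V)⁻¹) := by
      rw [← mul_assoc (j (J z0)), ← map_mul, mul_comm (J z0), map_mul]
      simp only [mul_assoc]
    rw [e]
    exact hd (((w.1 : V), (w.2 : V)) : V × V) o.1 (j (J z0) * n)
  · change d o.1 (j (J z0) * (j G.y * n)) = Y.χ (θ (dg o.1)) * d o.1 (j (J z0) * (n * j G.y))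
    have e : j (J z0) * (j G.y * n) = j G.y * (j (J z0) * n) := by
      rw [← mul_assoc, ← map_mul, mul_comm (J z0), map_mul, mul_assoc]
    rw [e]
    calc d o.1 (j G.y * (j (J z0) * n))
        = Y.χ (θ (dg o.1)) * Y.χ (θ (dg o.1)⁻¹) * d o.1 (j G.y * (j (J z0) * n)) := by
          rw [hχ, one_mul]
      _ = Y.χ (θ (dg o.1)) * d o.1 (j (J z0) * n * j G.y) := by
          rw [mul_assoc, k2]
      _ = _ := by rw [mul_assoc (j (J z0))]
  · rw [Finset.univ_eq_empty (α := Empty), Finset.sum_empty, add_zero, LinearMap.sum_apply]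
    simp only [LinearMap.smulRight_apply]
    have hbij : Function.Bijective (fun p : V1 × {ω // ω ∈ Θ} =>
        (((i p.1 : V), (1 : V)) : V × V) • p.2.1) := by
      constructor
      · rintro ⟨v, o⟩ ⟨v', o'⟩ h
        simp only at h
        have h1 : ((i (v'⁻¹ * v), (1 : V)) : V × V) • o.1 = o'.1 := by
          have h2 := congrArg (fun x => ((i v'⁻¹, (1 : V)) : V × V) • x) h
          simp only [smul_smul, Prod.mk_mul_mk, mul_one, ← map_mul, inv_mul_cancel, map_one] at h2
          rw [h2]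
          exact one_smul (V × V) o'.1
        have h2 : ((i (v'⁻¹ * v), (1 : V)) : V × V) • o.1 = o.1 := by
          refine hCc o.1 o.2 _ ⟨_, rfl⟩ i.range.one_mem ?_
          rw [h1]
          exact o'.2
        obtain ⟨e, he, -⟩ := hmem o.1
        have h3 : i (v'⁻¹ * v) = φ e 1 := he _ h2
        rw [map_one, ← map_one i] at h3
        have h4 : v = v' := (inv_mul_eq_one.mp (hi h3)).symm
        have h5 : o = o' := Subtype.ext (h2.symm.trans h1)
        rw [h4, h5]
      · intro ω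
        obtain ⟨a, ha1, ha2, ha⟩ := hB ω
        obtain ⟨e, -, hp⟩ := hmem (a • ω)
        obtain ⟨v, hv⟩ : a.1⁻¹ * φ e a.2 ∈ i.range :=
          i.range.mul_mem (i.range.inv_mem ha1) (hφP e _ ha2)
        refine ⟨(v, ⟨a • ω, ha⟩), ?_⟩
        change ((i v, (1 : V)) : V × V) • a • ω = ω
        have h1 : ((i v, (1 : V)) : V × V) = a⁻¹ * (φ e a.2, a.2) := by
          refine Prod.ext hv ?_
          change (1 : V) = a.2⁻¹ * a.2
          rw [inv_mul_cancel]
        rw [h1, ← smul_smul, hp _ ha2, inv_smul_smul]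
    rw [← hbij.sum_comp, Fintype.sum_prod_type_right]
    refine Finset.sum_congr rfl fun o _ => ?_
    let β : MonoidAlgebra F V1 →ₗ[F] MonoidAlgebra F V1 →ₗ[F] A :=
      LinearMap.mk₂ F (fun γ1 γ2 => d o.1 (j (J γ2) * n) • (j (J γ1) * b o.1))
        (fun γ γ' γ2 => by simp only [map_add, add_mul, smul_add])
        (fun r γ γ2 => by
          simp only [map_smul, smul_mul_assoc]
          rw [smul_comm])
        (fun γ γ2 γ2' => by simp only [map_add, add_mul, add_smul])
        (fun r γ γ2 => by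
          simp only [map_smul, smul_mul_assoc, smul_eq_mul, mul_smul])
    have hβ : ∀ γ1 γ2, β γ1 γ2 = d o.1 (j (J γ2) * n) • (j (J γ1) * b o.1) := fun _ _ => rfl
    have h1 := hz A β
    simp only [hβ] at h1
    have hleft : ∀ v : V1, d ((((i v : V), (1 : V)) : V × V) • o.1) n •
        b ((((i v : V), (1 : V)) : V × V) • o.1) =
        d o.1 (j (J (MonoidAlgebra.of F V1 v⁻¹)) * n) •
          (j (J (MonoidAlgebra.of F V1 v)) * b o.1) := by
      intro v
      rw [hJ, il_of, il_of, hb]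
      have h2 := hd ((i v, (1 : V)) : V × V) o.1 (j (ι (i v⁻¹)) * n)
      have h3 : j (ι (((i v, (1 : V)) : V × V).1)) * (j (ι (i v⁻¹)) * n) *
          j (ι (((i v, (1 : V)) : V × V).2)⁻¹) = n := by
        simp only [inv_one, map_one, mul_one]
        rw [← mul_assoc, ← map_mul, ← map_mul, ← map_mul, mul_inv_cancel, map_one, map_one,
          map_one, one_mul]
      rw [h3] at h2
      rw [h2]
      simp only [inv_one, map_one, mul_one]
      rfl
    rw [Finset.sum_congr rfl fun v _ => hleft v, h1]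
    refine Finset.sum_congr rfl fun k _ => ?_
    change d o.1 (j (J z0) * (AB j).lm (G.y ^ (l - 1 - k)) n) • (AB j).lm (G.y ^ k) (b o.1) = _
    have e1 : j (J (z0 * Y.y ^ (l - 1 - k))) = j (J z0) * j (G.y ^ (l - 1 - k)) := by
      rw [hGy, map_mul J, map_mul j, map_pow J]
    have e2 : j (J (Y.y ^ k)) = j (G.y ^ k) := by
      rw [hGy, map_pow J]
    rw [hlm, hlm, e1, e2, mul_assoc (j (J z0))]

end Pool.Agent.PFE.H80
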